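import Mathlib

namespace Pool.Agent.Results.MP_f888fa_lc.No

universe u v

/-- Terms over the signature `0, 1, ⊥, -, +, ·, ÷` with variables indexed by `ℕ`. -/
inductive Tm
  | var (n : ℕ) | zero | one | bot | neg (s : Tm) | add (s t : Tm) | mul (s t : Tm)
  | div (s t : Tm)

/-- An algebra for the signature on the carrier `A`. -/
structure Alg (A : Type u) where
  zero : A
  one : A
  bot : A
  neg : A → A
  add : A → A → A
  mul : A → A → A
  div : A → A → A

/-- Value of a term under an assignment. -/
def Tm.eval {A : Type u} (M : Alg A) (v : ℕ → A) : Tm → A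
  | .var n => v n
  | .zero => M.zero
  | .one => M.one
  | .bot => M.bot
  | .neg s => M.neg (s.eval M v)
  | .add s t => M.add (s.eval M v) (t.eval M v)
  | .mul s t => M.mul (s.eval M v) (t.eval M v)
  | .div s t => M.div (s.eval M v) (t.eval M v)

/-- A conditional equation (list of premises, conclusion) is true in `M`. -/
def Valid {A : Type u} (M : Alg A) (c : List (Tm × Tm) × (Tm × Tm)) : Prop :=
  ∀ v : ℕ → A, (∀ e ∈ c.1, e.1.eval M v = e.2.eval M v) → c.2.1.eval M v = c.2.2.eval M v

open Classical in
/-- The common meadow of a field `F` (`none` is `⊥`). -/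
noncomputable def cm (F : Type u) [Field F] : Alg (Option F) where
  zero := some 0
  one := some 1
  bot := none
  neg a := a.map fun x => -x
  add a b := a.bind fun x => b.map fun y => x + y
  mul a b := a.bind fun x => b.map fun y => x * y
  div a b := a.bind fun x => b.bind fun y => if y = 0 then none else some (x * y⁻¹)

/-- Numerals `1`, `1 + 1`, `1 + 1 + 1`, ... -/
def num : ℕ → Tm
  | 0 => .zero
  | 1 => .one
  | n + 2 => .add (num (n + 1)) .one

/-- `0/2 · 0/3 = 0/2 · 0/p → 0/3 = 0/p`. -/
def phi (p : ℕ) : List (Tm × Tm) × (Tm × Tm) :=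
  ([(.mul (.div .zero (num 2)) (.div .zero (num 3)),
      .mul (.div .zero (num 2)) (.div .zero (num p)))],
    (.div .zero (num 3), .div .zero (num p)))

theorem result : ∃ E : List (List (Tm × Tm) × (Tm × Tm)),
    (∀ (F : Type u) [Field F], ∀ c ∈ E, Valid (cm F) c) ∧
      ∀ p : ℕ, p.Prime → 5 ≤ p → ∀ (A : Type v) (M : Alg A), (∀ c ∈ E, Valid M c) →
        Valid M (phi p) := by
  let w : Tm := .add (.add (.var 0) (.var 0)) .one
  refine ⟨[([], (.add (.add (.var 0) (.var 1)) (.var 2), .add (.var 0) (.add (.var 1) (.var 2)))),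
    ([], (.add (.var 0) (.var 1), .add (.var 1) (.var 0))),
    ([], (.mul .zero (.add (.var 0) .one), .mul .zero (.var 0))),
    ([], (.mul .zero .one, .zero)),
    ([(.mul .zero (.var 0), .zero), (.mul (.div .zero (num 2)) (.div .zero (num 3)),
      .mul (.div .zero (num 2)) (.div .zero w))], (.div .zero (num 3), .div .zero w))], ?_, ?_⟩
  · intro F _ c hc
    simp only [List.mem_cons, List.not_mem_nil, or_false] at hc
    rcases hc with rfl | rfl | rfl | rfl | rfl <;> intro v hv
    · simp only [Tm.eval, cm]
      cases v 0 <;> cases v 1 <;> cases v 2 <;> simp [add_assoc]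
    · simp only [Tm.eval, cm]
      cases v 0 <;> cases v 1 <;> simp [add_comm]
    · simp only [Tm.eval, cm]
      cases v 0 <;> simp
    · simp [Tm.eval, cm]
    · simp only [List.mem_cons, List.not_mem_nil, or_false, forall_eq_or_imp, forall_eq] at hv
      simp only [Tm.eval, cm, num, w] at hv ⊢
      rcases hx : v 0 with _ | x
      · simp [hx] at hv
      · simp only [hx, Option.bind_some, Option.map_some] at hv ⊢
        by_cases h2 : (1 + 1 : F) = 0
        · have : x + x = 0 := by linear_combination x * h2
          simp [h2, this]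
        · have h3 := hv.2
          simp only [if_neg h2, Option.bind_some] at h3
          split_ifs at h3 ⊢ <;> simp_all
  · intro p hp h5 A M H v hv
    simp only [List.mem_cons, List.not_mem_nil, or_false, forall_eq_or_imp, forall_eq] at H
    obtain ⟨h1, h2, h3, h4, h6⟩ := H
    have a1 : ∀ x y z, M.add (M.add x y) z = M.add x (M.add y z) := fun x y z =>
      h1 (fun n => if n = 0 then x else if n = 1 then y else z) (by simp)
    have a2 : ∀ x y, M.add x y = M.add y x := fun x y =>
      h2 (fun n => if n = 0 then x else y) (by simp)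
    have a3 : ∀ x, M.mul M.zero (M.add x M.one) = M.mul M.zero x := fun x =>
      h3 (fun _ => x) (by simp)
    have a4 : M.mul M.zero M.one = M.zero := h4 v (by simp)
    have b : ∀ k, M.mul M.zero ((num (k + 1)).eval M v) = M.zero ∧ (num (2 * k + 3)).eval M v =
        M.add (M.add ((num (k + 1)).eval M v) ((num (k + 1)).eval M v)) M.one := by
      intro k
      induction k with
      | zero => exact ⟨a4, rfl⟩
      | succ k ih =>
        refine ⟨(a3 _).trans ih.1, ?_⟩
        change M.add (M.add ((num (2 * k + 3)).eval M v) M.one) M.one = M.add (M.add (M.add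
          ((num (k + 1)).eval M v) M.one) (M.add ((num (k + 1)).eval M v) M.one)) M.one
        rw [ih.2]
        generalize (num (k + 1)).eval M v = x
        rw [← a1 (M.add x M.one) x, a1 x M.one x, a2 M.one x, ← a1 x x]
    obtain ⟨k, rfl⟩ : ∃ k, p = 2 * k + 3 := by
      obtain ⟨j, hj⟩ := hp.odd_of_ne_two (by omega)
      exact ⟨j - 1, by omega⟩
    have h7 := hv _ (List.mem_singleton_self _)
    have h8 := h6 (fun _ => (num (k + 1)).eval M v)
    simp only [List.mem_cons, List.not_mem_nil, or_false, forall_eq_or_imp, forall_eq] at h8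
    simp only [phi, Tm.eval, (b k).2] at h7 ⊢
    exact h8 ⟨(b k).1, h7⟩

end Pool.Agent.Results.MP_f888fa_lc.No
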